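import Pool.Agent.N869.GK.StmM

set_option autoImplicit false

/-! GK/M-CJM: twists of one curve are not conjugate. -/

namespace Pool.Agent.N199.GK.CJM

open Pool.Agent.N869.GK Pool.Agent.N869.GK.M

lemma dot_add_left {r : ℕ} (x y z : Gr r) : dot (x + y) z = dot x z + dot y z := by
  unfold dot
  rw [← Finset.sum_add_distrib]
  exact Finset.sum_congr rfl fun i _ => by rw [Pi.add_apply, add_mul]

lemma dot_add_right {r : ℕ} (x y z : Gr r) : dot x (y + z) = dot x y + dot x z := by
  unfold dot
  rw [← Finset.sum_add_distrib]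
  exact Finset.sum_congr rfl fun i _ => by rw [Pi.add_apply, mul_add]

lemma dot_single {r : ℕ} (x : Gr r) (i : Fin r) : dot x (Pi.single i 1) = x i := by
  unfold dot
  rw [Finset.sum_eq_single i]
  · rw [Pi.single_eq_same, mul_one]
  · intro j _ hj
    rw [Pi.single_eq_of_ne hj, mul_zero]
  · intro h
    exact absurd (Finset.mem_univ i) h

lemma two_cases (l l' a b e : ZMod 2) (h : l * (l + e) - a * b = l' * (l' + e) - a * b) :
    l' + l = 1 → e = 1 := by
  revert h
  revert l l' a b e
  decide

/-- GK/M-CJM -/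
theorem t_CJM : S_CJM := by
  intro r D D' hem haa hbb h1 h2
  rintro ⟨P, hP, hPM⟩
  have hdet : P.det ≠ 0 := ((Matrix.isUnit_iff_isUnit_det P).1 hP).ne_zero
  have key : ∀ π, dot (D'.ll + D.ll) π = 1 → dot D.em π = 1 := by
    intro π
    have h3 := congrArg Matrix.det (hPM π)
    rw [Matrix.det_mul, Matrix.det_mul, mul_comm] at h3
    have h4 := mul_right_cancel₀ hdet h3
    unfold Mt at h4
    rw [Matrix.det_fin_two_of, Matrix.det_fin_two_of, hem, haa, hbb] at h4
    rw [dot_add_left]
    exact two_cases _ _ _ _ _ h4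
  obtain ⟨i, hi⟩ : ∃ i, D'.ll i ≠ D.ll i := by
    by_contra h
    push Not at h
    exact h1 (funext h)
  have hz : ∀ x : ZMod 2, x = 0 ∨ x = 1 := by decide
  have hz2 : ∀ x y : ZMod 2, x ≠ y → x + y = 1 := by decide
  have h0 : dot (D'.ll + D.ll) (Pi.single i 1) = 1 := by
    rw [dot_single]
    exact hz2 _ _ hi
  have h0' := key _ h0
  have heq : ∀ π, dot D.em π = dot (D'.ll + D.ll) π := by
    intro π
    rcases hz (dot (D'.ll + D.ll) π) with h | h
    · rw [h]
      have h3 := key (π + Pi.single i 1) (by rw [dot_add_right, h, h0, zero_add])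
      rw [dot_add_right, h0'] at h3
      have hz3 : ∀ x : ZMod 2, x + 1 = 1 → x = 0 := by decide
      exact hz3 _ h3
    · rw [h, key _ h]
  apply h2
  funext j
  have h3 := heq (Pi.single j 1)
  rw [dot_single, dot_single] at h3
  rw [Pi.add_apply, h3]
  have hz4 : ∀ x y : ZMod 2, x = y + (x + y) := by decide
  exact hz4 _ _

end Pool.Agent.N199.GK.CJM
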